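import Pool.Agent.helper78.NLS.Spec

set_option autoImplicit false

open Complex Metric Set Filter Topology MeasureTheory MPS
open Pool.Agent.helper98.ILF Pool.Agent.helper16.Multibrot

noncomputable section

namespace NLS

/-- Smoothness and derivatives of finite sums. -/
theorem LBZ_sum (hA : ALG_stmt) (u : ℕ → ℂ → ℂ) (hu : ∀ i, Sm (u i)) (s : Finset ℕ) :
    Sm (fun z => ∑ i ∈ s, u i z) ∧ ∀ z, db (fun z => ∑ i ∈ s, u i z) z = ∑ i ∈ s, db (u i) z ∧
      dd (fun z => ∑ i ∈ s, u i z) z = ∑ i ∈ s, dd (u i) z := by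
  obtain ⟨hadd, -, -, -, -, -, hconst, -⟩ := hA
  induction s using Finset.induction_on with
  | empty =>
    simp only [Finset.sum_empty]
    obtain ⟨h1, h2⟩ := hconst 0
    exact ⟨h1, fun z => ⟨(h2 z).2, (h2 z).1⟩⟩
  | insert a s ha ih =>
    obtain ⟨ih1, ih2⟩ := ih
    obtain ⟨h1, -, -, h2, -, -⟩ := hadd (u a) (fun z => ∑ i ∈ s, u i z) (hu a) ih1
    have he : (fun z => ∑ i ∈ insert a s, u i z) = fun z => u a z + ∑ i ∈ s, u i z := by
      funext z
      rw [Finset.sum_insert ha]
    rw [he]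
    refine ⟨h1, fun z => ?_⟩
    rw [Finset.sum_insert ha, Finset.sum_insert ha, (h2 z).1, (h2 z).2, (ih2 z).1, (ih2 z).2]
    exact ⟨rfl, rfl⟩

theorem LBZ (hA : ALG_stmt) (hP : PSP_stmt) : LBZ_stmt := by
  intro n R m hR hm hm1
  obtain ⟨hps, h0, -⟩ := hP 1 R m le_rfl hR hm hm1
  have hA' := hA
  obtain ⟨hadd, -, -, -, -, -, hconst, -⟩ := hA'
  have hsm : ∀ j, Sm (ps m j) := fun j => (hps j).1
  have hdb : ∀ j z, db (ps m (j + 1)) z = m z * dd (ps m j) z := fun j z => (hps j).2.2.2.1 z
  have hdb0 : ∀ z, db (ps m 0) z = 0 := fun z => (h0 z).2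
  have hmul : ∀ u v : ℂ → ℂ, Sm u → Sm v → Sm (fun z => u z * v z) ∧
      ∀ z, db (fun z => u z * v z) z = db u z * v z + u z * db v z ∧
        dd (fun z => u z * v z) z = dd u z * v z + u z * dd v z := by
    intro u v hu hv
    obtain ⟨-, -, h3, -, -, h6⟩ := hadd u v hu hv
    exact ⟨h3, h6⟩
  induction n with
  | zero =>
    have hc : ∀ j, PP 0 m j = fun _ => if j = 0 then (1 : ℂ) else 0 := by
      intro j
      funext z
      rfl
    refine ⟨fun j => ?_, fun z => ?_, fun j z => ?_⟩
    · rw [hc j]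
      exact (hconst _).1
    · rw [hc 0]
      exact ((hconst _).2 z).2
    · rw [hc (j + 1), hc j, ((hconst _).2 z).2, ((hconst _).2 z).1, mul_zero]
  | succ k ih =>
    obtain ⟨ih1, ih2, ih3⟩ := ih
    have he : ∀ j, PP (k + 1) m j = fun z => ∑ i ∈ Finset.range (j + 1), PP k m i z * ps m (j - i) z := by
      intro j
      funext z
      rfl
    have hS : ∀ j, Sm (PP (k + 1) m j) ∧ ∀ z,
        db (PP (k + 1) m j) z = ∑ i ∈ Finset.range (j + 1), (db (PP k m i) z * ps m (j - i) z + PP k m i z * db (ps m (j - i)) z) ∧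
        dd (PP (k + 1) m j) z = ∑ i ∈ Finset.range (j + 1), (dd (PP k m i) z * ps m (j - i) z + PP k m i z * dd (ps m (j - i)) z) := by
      intro j
      rw [he j]
      obtain ⟨h1, h2⟩ := LBZ_sum hA (fun i z => PP k m i z * ps m (j - i) z)
        (fun i => (hmul _ _ (ih1 i) (hsm (j - i))).1) (Finset.range (j + 1))
      refine ⟨h1, fun z => ?_⟩
      rw [(h2 z).1, (h2 z).2]
      constructor
      · apply Finset.sum_congr rfl
        intro i _
        exact ((hmul _ _ (ih1 i) (hsm (j - i))).2 z).1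
      · apply Finset.sum_congr rfl
        intro i _
        exact ((hmul _ _ (ih1 i) (hsm (j - i))).2 z).2
    refine ⟨fun j => (hS j).1, fun z => ?_, fun j z => ?_⟩
    · rw [((hS 0).2 z).1]
      simp [ih2 z, hdb0 z]
    · rw [((hS (j + 1)).2 z).1, ((hS j).2 z).2, Finset.sum_add_distrib]
      have e1 : ∑ i ∈ Finset.range (j + 1 + 1), db (PP k m i) z * ps m (j + 1 - i) z =
          ∑ i ∈ Finset.range (j + 1), m z * (dd (PP k m i) z * ps m (j - i) z) := by
        rw [Finset.sum_range_succ', ih2 z, zero_mul, add_zero]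
        apply Finset.sum_congr rfl
        intro i _
        rw [ih3 i z, show j + 1 - (i + 1) = j - i by omega, mul_assoc]
      have e2 : ∑ i ∈ Finset.range (j + 1 + 1), PP k m i z * db (ps m (j + 1 - i)) z =
          ∑ i ∈ Finset.range (j + 1), m z * (PP k m i z * dd (ps m (j - i)) z) := by
        rw [Finset.sum_range_succ, show j + 1 - (j + 1) = 0 by omega, hdb0 z, mul_zero, add_zero]
        apply Finset.sum_congr rfl
        intro i hi
        have hi' : i ≤ j := by
          have := Finset.mem_range.1 hi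
          omega
        rw [show j + 1 - i = (j - i) + 1 by omega, hdb (j - i) z]
        ring
      rw [e1, e2, ← Finset.sum_add_distrib, Finset.mul_sum]
      apply Finset.sum_congr rfl
      intro i _
      ring

end NLS
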